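import Pool.Agent.Helper61.BT.Goals

/-!
# Project BT (MP_266b34_co), packet RKB: the rank inequality
-/

set_option autoImplicit false

namespace Pool.Agent.Helper50.BT

open Pool.Agent.Helper27.VF Pool.Agent.Helper38.VF Pool.Agent.Helper61.BT

universe u

/-- the left translations are linear -/
lemma lin_of_left {A : Type u} [Group A] [DistribMulAction A (L2 A)] (h : LeftAct A) :
    Lin A (L2 A) := by
  intro a r m
  apply lp.ext
  funext b
  have h1 := h a (r • m) b
  have h2 := h a m b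
  rw [h1]
  change r * m (a⁻¹ * b) = r * (a • m) b
  rw [h2]

/-- the values of the derivations -/
def valGrp (A : Type u) [Group A] (M : Type u) [AddCommGroup M] [DistribMulAction A M] {k : ℕ}
    (x : Fin k → A) : AddSubgroup (Fin k → M) where
  carrier := {e | ∃ δ : A → M, IsDer δ ∧ ∀ i, e i = δ (x i)}
  zero_mem' := by
    refine ⟨fun _ => 0, ?_, fun _ => rfl⟩
    intro b b'
    rw [smul_zero, add_zero]
  add_mem' := by
    rintro e e' ⟨δ, hδ, he⟩ ⟨δ', hδ', he'⟩
    refine ⟨fun a => δ a + δ' a, ?_, fun i => by rw [Pi.add_apply, he i, he' i]⟩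
    intro b b'
    change δ (b * b') + δ' (b * b') = δ b + δ' b + b • (δ b' + δ' b')
    rw [hδ b b', hδ' b b', smul_add]
    abel
  neg_mem' := by
    rintro e ⟨δ, hδ, he⟩
    refine ⟨fun a => - δ a, ?_, fun i => by rw [Pi.neg_apply, he i]⟩
    intro b b'
    change - δ (b * b') = - δ b + b • (- δ b')
    rw [hδ b b', smul_neg]
    abel

theorem rkb (h1 : ActStmt.{u}) (h2 : FoxStmt.{u}) (h3 : KurStmt.{u}) (h4 : PrjStmt.{u})
    (h5 : TrgStmt.{u}) (h6 : PrkStmt.{u}) (h7 : TchStmt.{u}) : RkbStmt.{u} := by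
  intro A _ n k N a ha hN hTri
  obtain ⟨x, E, o, hEf, ho, hT⟩ := hTri
  obtain ⟨act, hact⟩ := h1 A
  obtain ⟨C, hC, hC'⟩ := h2 A hact n k a x ha
  obtain ⟨Tk, hTk⟩ := h3 A k
  obtain ⟨Tn, hTn⟩ := h3 A n
  have hlin : Lin A (L2 A) := lin_of_left hact
  have hp := fun i => h4 A hact (E i) N (o i) (hEf i) (hN _ (hEf i)) (ho i)
  choose π p1 p2 p3 p4 p5 using hp
  obtain ⟨P, q1, q2, q3, q4, q5⟩ := h6 A k π p1 p2 p4 N p5
  have hN1 : 1 ≤ N := by
    have h := hN ⊥ (by simp)
    rwa [Subgroup.card_bot] at h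
  -- the range
  have key : ∀ f, P f ∈ closure (Set.range (P.comp C)) := by
    intro f
    have hf : ∀ i b, (Tk.symm f) i b = f (i, b) := by
      intro i b
      have h := hTk (Tk.symm f) i b
      rw [ContinuousLinearEquiv.apply_symm_apply] at h
      exact h.symm
    have hcoord : ∀ e : Fin k → L2 A, P (Tk e) = Tk (fun i => π i (e i)) := by
      intro e
      apply lp.ext
      funext z
      obtain ⟨i, b⟩ := z
      rw [q4 (Tk e) e (fun i b => (hTk e i b).symm) i b, hTk]
    have hPf : P f = Tk (fun i => π i ((Tk.symm f) i)) := by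
      have h := hcoord (Tk.symm f)
      rwa [ContinuousLinearEquiv.apply_symm_apply] at h
    rw [hPf]
    have hw : (fun i => π i ((Tk.symm f) i)) ∈
        closure {u : Fin k → L2 A | ∃ d ∈ valGrp A (L2 A) x, u = fun i => π i (d i)} := by
      rw [Metric.mem_closure_iff]
      intro ε hε
      obtain ⟨d, hd, hd'⟩ := h5 (L2 A) k (valGrp A (L2 A) x) π p2 (by
        intro i w hw η hη
        have hcl := p3 i w
        rw [hw, Metric.mem_closure_iff] at hcl
        obtain ⟨z, ⟨v, hv, hz⟩, hdist⟩ := hcl η hη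
        obtain ⟨δ, hδ, hδi, hδj⟩ := hT (L2 A) hlin i v hv
        refine ⟨fun j => δ (x j), ⟨δ, hδ, fun _ => rfl⟩, ?_, fun j hj => hδj j hj⟩
        rw [dist_comm, dist_eq_norm, hz] at hdist
        change ‖δ (x i) - w‖ < η
        rw [hδi]
        exact hdist) (fun i => π i ((Tk.symm f) i)) (fun i => p2 i _) ε hε
      refine ⟨fun i => π i (d i), ⟨d, hd, rfl⟩, ?_⟩
      rw [dist_pi_lt_iff hε]
      intro i
      rw [dist_comm, dist_eq_norm]
      exact hd' i
    have hw2 := image_closure_subset_closure_image Tk.continuous (Set.mem_image_of_mem Tk hw)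
    refine closure_mono ?_ hw2
    rintro _ ⟨_, ⟨d, ⟨δ, hδ, hd⟩, rfl⟩, rfl⟩
    refine ⟨Tn fun i => δ (a i), ?_⟩
    have hCd : C (Tn fun i => δ (a i)) = Tk d := by
      apply lp.ext
      funext z
      obtain ⟨i, b⟩ := z
      rw [hC' δ hδ _ (fun i b => hTn _ i b) i b, hTk, hd i]
    rw [ContinuousLinearMap.comp_apply, hCd, hcoord d]
  have hfin := h7 A n k (P.comp C) P (by
    intro h f f' hff z
    rw [ContinuousLinearMap.comp_apply, ContinuousLinearMap.comp_apply]
    exact q1 h (C f) (C f') (fun z => hC h f f' hff z) z) q2 q3 (fun y => q3 (C y)) key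
  have hNr : (0 : ℝ) < N := by exact_mod_cast hN1
  have h8 : (k : ℝ) / (2 * N) ≤ n := q5.trans hfin
  rw [div_le_iff₀ (by positivity)] at h8
  have h9 : (k : ℝ) ≤ ((2 * N * n : ℕ) : ℝ) := by
    push_cast
    linarith
  exact_mod_cast h9

end Pool.Agent.Helper50.BT
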